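import Pool.Agent.H52.CIC.StG
import Pool.Agent.H11.Ism.GeoB

/-!
# Project CIC: basic facts about the Bruhat graph (helper 3)
-/

set_option linter.unusedSimpArgs false

namespace Pool.Agent.H52.CIC.G3

open Pool.Agent.H11.ZDE Pool.Agent.H11.ZDE.RootLat Pool.Agent.H52.CIC

variable {B W : Type} [Group W] {M : CoxeterMatrix B} {cs : CoxeterSystem M W}
  {L : Type} [AddCommGroup L] {R : RootLat L} (G : Geo cs R)

theorem al_mem (i : B) : G.α i ∈ R.S := G.αS ▸ Set.mem_range_self i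

theorem al_q (i : B) : R.Q (G.α i) (G.α i) = 2 := R.S_root _ (al_mem G i)

theorem al_p (i : B) : R.P (G.α i) := R.S_pos _ (al_mem G i)

theorem rr (i : B) (v : L) : R.r (G.α i) (R.r (G.α i) v) = v := by
  have := congrArg (fun f => f v) (R.r_r (al_q G i))
  simpa using this

theorem rho_s (u : W) (i : B) (v : L) : G.ρ (u * cs.simple i) v = G.ρ u (R.r (G.α i) v) := by
  rw [map_mul, ← G.Tα i, G.ρT _ (al_q G i)]; rfl

theorem rho_Tk (u : W) {b : L} (hb : R.Q b b = 2) (v : L) {k : ℤ} (hk : R.Q v b = k) :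
    G.ρ (u * G.T b) v = G.ρ u (v - k • b) := Pool.Agent.H58.ZDE.rho_Tk G hb u v hk

theorem up_al (u : W) (i : B) : Up G u (G.α i) ↔ cs.length u < cs.length (u * cs.simple i) := by
  have h := Pool.Agent.H11.Ism.pos_iff G u (al_q G i) (al_p G i)
  rw [G.Tα] at h
  rw [← h]
  exact ⟨fun h => h.u, fun h => ⟨al_q G i, al_p G i, h⟩⟩

theorem nup_al (u : W) (i : B) : ¬ Up G u (G.α i) ↔ cs.length (u * cs.simple i) < cs.length u := by
  rw [up_al]
  rcases cs.length_mul_simple u i with h | h <;> omega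

theorem nup_neg (u : W) (i : B) : ¬ Up G u (G.α i) ↔ R.P (-(G.ρ u (G.α i))) := by
  constructor
  · intro h
    rcases Pool.Agent.H58.ZDE.sgn G u (al_q G i) with h1 | h1
    · exact absurd ⟨al_q G i, al_p G i, h1⟩ h
    · exact h1
  · intro h h'
    exact R.P_neg h'.u h

theorem sss (u : W) (i : B) : u * cs.simple i * cs.simple i = u := by
  rw [mul_assoc, cs.simple_mul_simple_self, mul_one]

theorem up_flip (u : W) (i : B) : Up G (u * cs.simple i) (G.α i) ↔ ¬ Up G u (G.α i) := by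
  rw [nup_al, up_al, sss]

theorem up_bru {u : W} {b : L} (h : Up G u b) : Bru cs u (u * G.T b) :=
  Pool.Agent.H58.ZDE.bru_step G h.q h.p h.u

theorem up_len {u : W} {b : L} (h : Up G u b) : cs.length u < cs.length (u * G.T b) :=
  G.lt _ _ h.q h.p h.u

theorem bru_rfl (u : W) : Bru cs u u := Relation.ReflTransGen.refl

theorem bru_anti {u v : W} (h : Bru cs u v) (h' : Bru cs v u) : u = v := by
  rcases Pool.Agent.H58.ZDE.bru_len h with h1 | h1
  · exact h1
  · rcases Pool.Agent.H58.ZDE.bru_len h' with h2 | h2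
    · exact h2.symm
    · omega

theorem bru_lenle {u v : W} (h : Bru cs u v) : cs.length u ≤ cs.length v := by
  rcases Pool.Agent.H58.ZDE.bru_len h with h1 | h1
  · rw [h1]
  · omega

/-- bottom below top -/
theorem lift_bt {x y : W} {i : B} (h : Bru cs x y) (hx : Up G x (G.α i)) (hy : ¬ Up G y (G.α i)) :
    Bru cs x (y * cs.simple i) ∧ Bru cs (x * cs.simple i) y :=
  (Pool.Agent.H11.Ism.geoB G).lift_ud ⟨i, rfl⟩ h ((nup_al G y i).1 hy) ((up_al G x i).1 hx)

theorem lift_tt {x y : W} {i : B} (h : Bru cs x y) (hx : ¬ Up G x (G.α i)) (hy : ¬ Up G y (G.α i)) :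
    Bru cs (x * cs.simple i) (y * cs.simple i) :=
  (Pool.Agent.H11.Ism.geoB G).lift_dd ⟨i, rfl⟩ h ((nup_al G y i).1 hy) ((nup_al G x i).1 hx)

theorem up_s {x : W} {i : B} (hx : Up G x (G.α i)) : Bru cs x (x * cs.simple i) := by
  have := up_bru G hx
  rwa [G.Tα] at this

theorem down_s {x : W} {i : B} (hx : ¬ Up G x (G.α i)) : Bru cs (x * cs.simple i) x := by
  have := up_s G ((up_flip G x i).2 hx)
  rwa [sss] at this

theorem lift_bb {x y : W} {i : B} (h : Bru cs x y) (hx : Up G x (G.α i)) (hy : Up G y (G.α i)) :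
    Bru cs (x * cs.simple i) (y * cs.simple i) := by
  have h1 : Bru cs x (y * cs.simple i) := h.trans (up_s G hy)
  have h2 : ¬ Up G (y * cs.simple i) (G.α i) := by
    rw [up_flip]; simpa using hy
  exact (lift_bt G h1 hx h2).2

/-- the lower interval of a top is stable -/
theorem stab {v y : W} {i : B} (hy : ¬ Up G y (G.α i)) (h : Bru cs v y) : Bru cs (v * cs.simple i) y := by
  by_cases hv : Up G v (G.α i)
  · exact (lift_bt G h hv hy).2
  · exact (down_s G hv).trans h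

theorem stab' {v y : W} {i : B} (hy : ¬ Up G y (G.α i)) (h : Bru cs (v * cs.simple i) y) : Bru cs v y := by
  have := stab G hy h
  rwa [sss] at this

/-- `s b` -/
theorem r_al (i : B) {b : L} {k : ℤ} (h : R.Q b (G.α i) = k) : R.r (G.α i) b = b - k • G.α i := by
  rw [r_apply, h]

theorem q_r (i : B) (b : L) : R.Q (R.r (G.α i) b) (G.α i) = - R.Q b (G.α i) := by
  rw [r_apply, R.Q_sub, R.Q_smul, al_q]; ring

theorem q_rr (i : B) (b c : L) : R.Q (R.r (G.α i) b) (R.r (G.α i) c) = R.Q b c := R.Q_r (al_q G i) b c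

theorem r_ne (i : B) {b : L} (hb : R.P b) : R.r (G.α i) b ≠ G.α i := by
  intro h
  have h1 := congrArg (R.r (G.α i)) h
  rw [rr] at h1
  rw [R.r_self (al_q G i)] at h1
  exact R.P_neg (al_p G i) (h1 ▸ hb)

theorem r_root (i : B) {b : L} (hb : R.Q b b = 2) (pb : R.P b) (h : b ≠ G.α i) :
    R.Q (R.r (G.α i) b) (R.r (G.α i) b) = 2 ∧ R.P (R.r (G.α i) b) := by
  refine ⟨by rw [q_rr]; exact hb, ?_⟩
  rw [r_apply]
  exact R.S_refl _ (al_mem G i) b hb pb h

/-- `u T_b s = u s T_{s b}` -/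
theorem T_s (u : W) (i : B) {b : L} (hb : R.Q b b = 2) :
    u * cs.simple i * G.T (R.r (G.α i) b) = u * G.T b * cs.simple i := by
  have q1 : R.Q (R.r (G.α i) b) (R.r (G.α i) b) = 2 := by rw [q_rr]; exact hb
  rw [← G.Tα i, mul_assoc, mul_assoc]
  congr 1
  apply Pool.Agent.H58.ZDE.T_mul_eq G (al_q G i) q1 hb (al_q G i)
  rw [R.conj (al_q G i)]

theorem up_mir {u : W} {i : B} {b : L} (hb : b ≠ G.α i) (h : Up G u b) :
    Up G (u * cs.simple i) (R.r (G.α i) b) := by
  obtain ⟨q1, p1⟩ := r_root G i h.q h.p hb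
  refine ⟨q1, p1, ?_⟩
  rw [rho_s, rr]
  exact h.u

/-- the mirrored function -/
noncomputable def mir (i : B) (ν : ℝ) (h : W → L → ℝ) (v : W) (c : L) : ℝ :=
  h (v * cs.simple i) (R.r (G.α i) c) + (R.Q c (G.α i) : ℝ) * ν

/-- a simple root is not the sum of two positive vectors -/
theorem al_ne_add (i : B) {b c : L} (pb : R.P b) (pc : R.P c) : b + c ≠ G.α i := by
  intro h
  have h1 := R.S_ht _ (al_mem G i)
  have h2 := R.ht_pos _ pb
  have h3 := R.ht_pos _ pc
  rw [← h, R.ht_add] at h1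
  omega

section
variable {G} {i : B} {h : W → L → ℝ} {u w : W}

theorem mir_o (ν : ℝ) (H : RelG G h (u * cs.simple i) (w * cs.simple i)) {b c : L} (ub : Up G u b)
    (uc : Up G u c) (q : R.Q b c = 0) (hw : w = u * G.T b * G.T c) (nb : b ≠ G.α i) (nc : c ≠ G.α i) :
    mir G i ν h (u * G.T b) c = mir G i ν h u c := by
  unfold mir
  rw [← T_s G u i ub.q]
  have h1 := H.o (R.r (G.α i) b) (R.r (G.α i) c) (up_mir G nb ub) (up_mir G nc uc) (by rw [q_rr]; exact q)
    (by rw [hw, T_s G u i ub.q, T_s G _ i uc.q])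
  rw [h1]

theorem mir_a (ν : ℝ) (H : RelG G h (u * cs.simple i) (w * cs.simple i)) {b c : L} (ub : Up G u b)
    (uc : Up G u c) (q : R.Q b c = -1) (hw : w = u * G.T b * G.T c) (nb : b ≠ G.α i) (nc : c ≠ G.α i) :
    mir G i ν h (u * G.T b) c = mir G i ν h u c ∧
    mir G i ν h (u * G.T c) (b + c) = mir G i ν h u b + mir G i ν h u c := by
  unfold mir
  rw [← T_s G u i ub.q, ← T_s G u i uc.q]
  obtain ⟨h1, h2⟩ := H.a (R.r (G.α i) b) (R.r (G.α i) c) (up_mir G nb ub) (up_mir G nc uc)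
    (by rw [q_rr]; exact q) (by rw [hw, T_s G u i ub.q, T_s G _ i uc.q])
  rw [h1, map_add, h2, R.Q_add]
  push_cast
  exact ⟨rfl, by ring⟩

theorem mir_b (ν : ℝ) (H : RelG G h (u * cs.simple i) (w * cs.simple i)) {b c : L} (ub : Up G u b)
    (ubc : Up G u (b + c)) (qc : R.Q c c = 2) (pc : R.P c) (hc : R.P (-(G.ρ u c))) (q : R.Q b c = -1)
    (hw : w = u * G.T b * G.T c) (nb : b ≠ G.α i) (nc : c ≠ G.α i) :
    mir G i ν h (u * G.T b) c = mir G i ν h u (b + c) - mir G i ν h u b ∧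
    mir G i ν h (u * G.T (b + c)) b = mir G i ν h u b := by
  unfold mir
  rw [← T_s G u i ub.q, ← T_s G u i ubc.q]
  obtain ⟨q1, p1⟩ := r_root G i qc pc nc
  obtain ⟨h1, h2⟩ := H.b (R.r (G.α i) b) (R.r (G.α i) c) (up_mir G nb ub)
    (by rw [← map_add]; exact up_mir G (al_ne_add G i ub.p pc) ubc) q1 p1 (by rw [rho_s, rr]; exact hc)
    (by rw [q_rr]; exact q) (by rw [hw, T_s G u i ub.q, T_s G _ i qc])
  rw [← map_add] at h1 h2
  rw [h1, h2, R.Q_add]
  push_cast
  exact ⟨by ring, rfl⟩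

theorem mir_s (ν : ℝ) (H : RelG G h (u * cs.simple i) (w * cs.simple i)) {b c : L} (ub : Up G u b)
    (uc : Up G u c) (q : R.Q b c = -1) (hw : w = u * G.T (b + c)) (nb : b ≠ G.α i) (nc : c ≠ G.α i) :
    mir G i ν h u (b + c) = mir G i ν h u b + mir G i ν h u c := by
  unfold mir
  have qbc : R.Q (b + c) (b + c) = 2 := Pool.Agent.H11.Ism.nadd G ub.q uc.q q
  have h1 := H.s (R.r (G.α i) b) (R.r (G.α i) c) (up_mir G nb ub) (up_mir G nc uc) (by rw [q_rr]; exact q)
    (by rw [hw, ← map_add, T_s G u i qbc])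
  rw [map_add, h1, R.Q_add]
  push_cast
  ring

end

end Pool.Agent.H52.CIC.G3
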